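import Mathlib
import Pool.Agent.Run7.h21.AlgMain

/-!
# Distortion inside the groups of algebraic germs

For every `r` (a natural number, `∞` or `ω`) let `AlgG r` be the group of the algebraic elements of
`𝒢^r`, those on whose graph near the origin a nonzero real polynomial in two variables vanishes.
If an element of `AlgG r` is a distortion element of `AlgG r` and the irreducible polynomial `P`
vanishes on its graph, then `P` has the same degree in both variables.  For `r ≥ 1` the germ of a
rational function `p / q` is a distortion element of `AlgG r` if and only if its multiplier is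
`1` or `-1` and `p`, `q` have degree at most one.  In particular the germ of `x - x ^ 2` is not a
distortion element of `AlgG r`.
-/

open Filter Topology Polynomial Run7.h21 in
open scoped Polynomial.Bivariate in
theorem Pool.Agent.Results.MP_b44c39_an.AlgebraicGerms.result (r : WithTop ℕ∞) :
    (∀ (g : AlgG r) (f : ℝ → ℝ) (P : ℝ[X][Y]), IsGermOf (g : G r) f → Irreducible P →
      (∀ᶠ x in 𝓝 (0 : ℝ), P.evalEval x (f x) = 0) → IsDistortionElement g →
        (Bivariate.swap P).natDegree = P.natDegree) ∧
    (r ≠ 0 → ∀ p q : ℝ[X], IsCoprime p q → p.eval 0 = 0 → q.eval 0 ≠ 0 →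
      p.derivative.eval 0 ≠ 0 →
      ∃ g : AlgG r, IsGermOf (g : G r) (fun x => p.eval x / q.eval x) ∧
        (IsDistortionElement g ↔
          |p.derivative.eval 0 / q.eval 0| = 1 ∧ p.natDegree ≤ 1 ∧ q.natDegree ≤ 1)) :=
  ⟨fun g f P hf hP h hg => natDegree_eq_of_distortion g f hf P hP h hg,
    fun hr _ _ hpq hp hq hd => rational_iff hr hpq hp hq hd⟩
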