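import Mathlib
import Pool.Agent.Run7.h21.OscGerm

/-!
# Flat perturbations that destroy distortion

For `2 ≤ r < ∞`, `b > 0` and `r (1 + b) < a ≤ 2 + (r - 1) (1 + b)` (such `a` exist exactly when
`b < 1`, and they come arbitrarily close to `2 r`), let `h x = x ^ a cos (x ^ (-b))` for `x > 0`
and `h x = 0` for `x ≤ 0`.  For every `f` of class `C^r` near `0` with `f(0) = 0`, `f'(0) = 1`, the
germ of `f + ε h` lies in `𝒢^r` for all real `ε`, and it is a distortion element of `𝒢^r` for at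
most one value of `ε`.
-/

open Run7.h21 in
theorem Pool.Agent.Results.MP_b44c39_an.FlatPerturbation.result
    (r : ℕ) (hr : 2 ≤ r) (a b : ℝ) (hb : 0 < b) (ha : (r : ℝ) * (1 + b) < a)
    (ha2 : a ≤ 2 + ((r : ℝ) - 1) * (1 + b)) (f : ℝ → ℝ) (hf : ContDiffAt ℝ r f 0)
    (h0 : f 0 = 0) (h1 : deriv f 0 = 1) :
    (∀ ε : ℝ, ∃ g : G (r : WithTop ℕ∞),
      IsGermOf g (fun x => f x + ε * (if 0 < x then x ^ a * Real.cos (x ^ (-b)) else 0))) ∧
    {ε : ℝ | ∃ g : G (r : WithTop ℕ∞),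
      IsGermOf g (fun x => f x + ε * (if 0 < x then x ^ a * Real.cos (x ^ (-b)) else 0)) ∧
        IsDistortionElement g}.Subsingleton := by
  obtain ⟨k, rfl⟩ : ∃ k, r = k + 1 := ⟨r - 1, by omega⟩
  have e : (((k + 1 : ℕ) : ℝ) - 1) = k := by push_cast; ring
  rw [e] at ha2
  exact osc_perturbation (by omega) hf h0 h1 hb ha ha2
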