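import Mathlib
import Pool.Agent.Run7.h21.LogGerm

/-!
# Undistorted germs tangent to the identity, in every `𝒢^r` with `2 ≤ r < ∞`

For every function `f` of class `C^r` near `0` with `f(0) = 0`, `f'(0) = 1`, the germ of
`f + ε x^r / log(1/|x|)` lies in `𝒢^r` for all real `ε`, and is a distortion element of `𝒢^r` for
at most one value of `ε`.
-/

open Run7.h21 in
theorem Pool.Agent.Results.MP_b44c39_an.LogPerturbation.result
    (r : ℕ) (hr : 2 ≤ r) (f : ℝ → ℝ) (hf : ContDiffAt ℝ r f 0) (h0 : f 0 = 0)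
    (h1 : deriv f 0 = 1) :
    (∀ ε : ℝ, ∃ g : G (r : WithTop ℕ∞),
      IsGermOf g (fun x => f x + ε * (x ^ r / Real.log (1 / |x|)))) ∧
    {ε : ℝ | ∃ g : G (r : WithTop ℕ∞),
      IsGermOf g (fun x => f x + ε * (x ^ r / Real.log (1 / |x|))) ∧
        IsDistortionElement g}.Subsingleton := by
  obtain ⟨k, rfl⟩ : ∃ k, r = k + 1 := ⟨r - 1, by omega⟩
  exact log_perturbation (by omega) hf h0 h1
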