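import Mathlib
import Pool.Agent.Run7.h21.Obstruction

/-!
# A necessary condition for distortion in `𝒢^r`, `2 ≤ r < ∞`

If a germ `g` tangent to the identity is a distortion element of `𝒢^r`, then the remainder
`ρ(x) = g^{(r-1)}(x) - g^{(r-1)}(0) - x g^{(r)}(0)` satisfies a nontrivial linear relation
`∑ n(t) e^{(r-2)t} ρ(e^t x) = C x^2 + o(x^2)` with finitely many nonzero integers `n(t)`.
-/

open Filter Topology Asymptotics Run7.h21 in
theorem Pool.Agent.Results.MP_b44c39_an.TorsionObstruction.result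
    (r : ℕ) (hr : 2 ≤ r) (g : G (r : WithTop ℕ∞)) (hg : IsDistortionElement g)
    (f : ℝ → ℝ) (hf : IsGermOf g f) (h1 : deriv f 0 = 1) :
    ∃ n : ℝ →₀ ℤ, n ≠ 0 ∧ ∃ C : ℝ,
      (fun x : ℝ => ∑ t ∈ n.support, (n t : ℝ) * Real.exp t ^ (r - 2) *
        (iteratedDeriv (r - 1) f (Real.exp t * x) - iteratedDeriv (r - 1) f 0
          - (Real.exp t * x) * iteratedDeriv r f 0) - C * x ^ 2) =o[𝓝 0]
        (fun x : ℝ => x ^ 2) := by
  obtain ⟨k, rfl⟩ : ∃ k, r = k + 1 := ⟨r - 1, by omega⟩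
  obtain ⟨a, ha, hav⟩ := isTors_of_isDistortionElement (k := k) (by omega) hg hf h1
  obtain ⟨C, hC⟩ := smul_cls_eq_zero _ _ _ hav
  refine ⟨a.coeff, ?_, C, ?_⟩
  · intro h
    apply ha
    ext x
    simp [h]
  · refine hC.congr_left fun x => ?_
    congr 1
    apply Finset.sum_congr rfl
    intro t _
    have e1 : k + 1 - 1 = k := by omega
    have e2 : k + 1 - 2 = k - 1 := by omega
    rw [e1, e2, iteratedDeriv_succ]
    simp only [tau]
    ring
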